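import Mathlib

/-!
# The charts of `Proj` in the function field (for PRJ of helper275's project)
-/

set_option autoImplicit false
set_option linter.unusedVariables false

namespace Pool.Agent.Run7.h56.SC

open AlgebraicGeometry CategoryTheory HomogeneousLocalization

section

variable {E A : Type} [Field E] [CommRing A] [Algebra E A] (𝒜 : ℕ → Submodule E A) [GradedAlgebra 𝒜]
  [IsIntegral (Proj 𝒜)]

/-- The degree zero fractions with a power of `x` in the denominator as elements of the function field. -/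
noncomputable def rho (x : A) [Nonempty (Proj.basicOpen 𝒜 x)] : Away 𝒜 x →+* ((Proj 𝒜).functionField : Type) :=
  ((Proj.awayToSection 𝒜 x) ≫ (Proj 𝒜).germToFunctionField (Proj.basicOpen 𝒜 x)).hom

lemma rho_apply (x : A) [Nonempty (Proj.basicOpen 𝒜 x)] (a : Away 𝒜 x) :
    rho 𝒜 x a = (Proj 𝒜).germToFunctionField (Proj.basicOpen 𝒜 x) (Proj.awayToSection 𝒜 x a) := rfl

lemma range_rho (x : A) (hx : x ∈ 𝒜 1) [Nonempty (Proj.basicOpen 𝒜 x)] :
    (rho 𝒜 x).range = ((Proj 𝒜).germToFunctionField (Proj.basicOpen 𝒜 x)).hom.range := by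
  ext z
  constructor
  · rintro ⟨a, rfl⟩
    exact ⟨_, rfl⟩
  · rintro ⟨b, rfl⟩
    have h := (Proj.basicOpenIsoAway 𝒜 x hx one_pos)
    have h1 : Function.Surjective (Proj.basicOpenIsoAway 𝒜 x hx one_pos).hom :=
      (ConcreteCategory.bijective_of_isIso (Proj.basicOpenIsoAway 𝒜 x hx one_pos).hom).2
    obtain ⟨a, ha⟩ := h1 b
    refine ⟨a, ?_⟩
    rw [rho_apply, ← ha, Proj.basicOpenIsoAway_hom]

lemma rho_awayMap (x w : A) (hw : w ∈ 𝒜 1) (y : A) (hy : y = x * w) [Nonempty (Proj.basicOpen 𝒜 x)]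
    [Nonempty (Proj.basicOpen 𝒜 y)] (a : Away 𝒜 x) : rho 𝒜 y (awayMap 𝒜 hw hy a) = rho 𝒜 x a := by
  rw [rho_apply, rho_apply]
  have h := Proj.awayMap_awayToSection 𝒜 hw hy
  have h1 := congrArg (fun g => (Proj 𝒜).germToFunctionField (Proj.basicOpen 𝒜 y) (g a)) h
  refine Eq.trans ?_ (h1.trans ?_)
  · rfl
  · have h2 := TopCat.Presheaf.germ_res (Proj 𝒜).presheaf
      (homOfLE (Proj.basicOpen_mono 𝒜 x y ⟨_, hy⟩)) (genericPoint (Proj 𝒜))
      (((genericPoint_spec (Proj 𝒜)).mem_open_set_iff (Proj.basicOpen 𝒜 y).isOpen).mpr (by simpa using ‹Nonempty (Proj.basicOpen 𝒜 y)›))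
    exact congrArg (fun g => g ((Proj.awayToSection 𝒜 x) a)) h2

/-- The constant `e` in the degree zero localisation. -/
noncomputable def con (x : A) (e : E) : Away 𝒜 x :=
  fromZeroRingHom 𝒜 (Submonoid.powers x) ⟨algebraMap E A e, SetLike.algebraMap_mem_graded 𝒜 e⟩

/-- The fraction `z / x`. -/
noncomputable def q {x z : A} (hx : x ∈ 𝒜 1) (hz : z ∈ 𝒜 1) : Away 𝒜 x :=
  Away.mk 𝒜 hx 1 z (by simpa using hz)

omit [IsIntegral (Proj 𝒜)] in
lemma awayMap_con (x w : A) (hw : w ∈ 𝒜 1) (y : A) (hy : y = x * w) (e : E) :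
    awayMap 𝒜 hw hy (con 𝒜 x e) = con 𝒜 y e := by
  rw [con, con, awayMap_fromZeroRingHom]

lemma basicOpen_mul_nonempty (x w : A) [h1 : Nonempty (Proj.basicOpen 𝒜 x)] [h2 : Nonempty (Proj.basicOpen 𝒜 w)] :
    Nonempty (Proj.basicOpen 𝒜 (x * w)) := by
  refine ⟨⟨genericPoint (Proj 𝒜), ?_⟩⟩
  rw [Proj.basicOpen_mul]
  exact ⟨((genericPoint_spec (Proj 𝒜)).mem_open_set_iff (Proj.basicOpen 𝒜 x).isOpen).mpr (by simpa using h1),
    ((genericPoint_spec (Proj 𝒜)).mem_open_set_iff (Proj.basicOpen 𝒜 w).isOpen).mpr (by simpa using h2)⟩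

lemma rho_con (x w : A) (hx : x ∈ 𝒜 1) (hw : w ∈ 𝒜 1) [Nonempty (Proj.basicOpen 𝒜 x)]
    [Nonempty (Proj.basicOpen 𝒜 w)] (e : E) : rho 𝒜 x (con 𝒜 x e) = rho 𝒜 w (con 𝒜 w e) := by
  have := basicOpen_mul_nonempty 𝒜 x w
  rw [← rho_awayMap 𝒜 x w hw (x * w) rfl, ← rho_awayMap 𝒜 w x hx (x * w) (mul_comm _ _), awayMap_con, awayMap_con]

lemma rho_q_self (x : A) (hx : x ∈ 𝒜 1) [Nonempty (Proj.basicOpen 𝒜 x)] : rho 𝒜 x (q 𝒜 hx hx) = 1 := by
  have h : q 𝒜 hx hx = 1 := by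
    ext
    rw [q, Away.val_mk, val_one, ← Localization.mk_one, Localization.mk_eq_mk_iff, Localization.r_iff_exists]
    exact ⟨1, by simp⟩
  rw [h, map_one]

lemma rho_q_mul (x w z : A) (hx : x ∈ 𝒜 1) (hw : w ∈ 𝒜 1) (hz : z ∈ 𝒜 1) [Nonempty (Proj.basicOpen 𝒜 x)]
    [Nonempty (Proj.basicOpen 𝒜 w)] :
    rho 𝒜 x (q 𝒜 hx hz) * rho 𝒜 w (q 𝒜 hw hx) = rho 𝒜 w (q 𝒜 hw hz) := by
  have := basicOpen_mul_nonempty 𝒜 x w
  rw [← rho_awayMap 𝒜 x w hw (x * w) rfl, ← rho_awayMap 𝒜 w x hx (x * w) (mul_comm _ _) (q 𝒜 hw hx),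
    ← rho_awayMap 𝒜 w x hx (x * w) (mul_comm _ _), ← map_mul]
  congr 1
  ext
  rw [val_mul, q, q, q, awayMap_mk, awayMap_mk, awayMap_mk, Away.val_mk, Away.val_mk, Away.val_mk, Localization.mk_mul,
    Localization.mk_eq_mk_iff, Localization.r_iff_exists]
  refine ⟨1, ?_⟩
  simp only [OneMemClass.coe_one, one_mul, pow_one, Submonoid.coe_mul]
  ring

/-- The range of `rho` is generated by the constants and by the fractions `z / x`, `z` in a set of generators. -/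
lemma range_rho_le (s : Finset A) (h0 : ∀ a ∈ 𝒜 0, ∃ q : E, algebraMap E A q = a) (hs1 : ∀ a ∈ s, a ∈ 𝒜 1)
    (hs : Algebra.adjoin E (s : Set A) = ⊤) (x : A) (hx : x ∈ 𝒜 1) [Nonempty (Proj.basicOpen 𝒜 x)]
    (S : Subring ((Proj 𝒜).functionField : Type)) (hS0 : ∀ e : E, rho 𝒜 x (con 𝒜 x e) ∈ S)
    (hS1 : ∀ z (hz : z ∈ s), rho 𝒜 x (q 𝒜 hx (hs1 z hz)) ∈ S) : (rho 𝒜 x).range ≤ S := by
  have h1 : Algebra.adjoin (𝒜 0) (Set.range (fun z : s => (z : A))) = ⊤ := by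
    rw [eq_top_iff]
    rintro a -
    have ha : a ∈ Algebra.adjoin E (s : Set A) := by rw [hs]; trivial
    induction ha using Algebra.adjoin_induction with
    | mem a ha => exact Algebra.subset_adjoin ⟨⟨a, ha⟩, rfl⟩
    | algebraMap r => exact Subalgebra.algebraMap_mem (Algebra.adjoin (𝒜 0) _) ⟨algebraMap E A r, SetLike.algebraMap_mem_graded 𝒜 r⟩
    | add a b _ _ ha hb => exact add_mem ha hb
    | mul a b _ _ ha hb => exact mul_mem ha hb
  have h2 := Away.span_mk_prod_pow_eq_top (𝒜 := 𝒜) hx (fun z : s => (z : A)) h1 (fun _ => 1) (fun z => hs1 z z.2)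
  rintro _ ⟨a, rfl⟩
  have h3 : a ∈ (⊤ : Submodule (𝒜 0) (Away 𝒜 x)) := trivial
  rw [← h2] at h3
  induction h3 using Submodule.span_induction with
  | mem a ha =>
    obtain ⟨n, ai, hai, rfl⟩ := ha
    have h4 : Away.mk 𝒜 hx n (∏ i : s, (i : A) ^ ai i)
        (hai ▸ SetLike.prod_pow_mem_graded _ _ _ _ fun (i : s) _ ↦ hs1 i i.2) =
        ∏ i : s, (q 𝒜 hx (hs1 i i.2)) ^ ai i := by
      apply (show Function.Injective (algebraMap (Away 𝒜 x) (Localization.Away x)) from val_injective _)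
      simp only [map_pow, map_prod]
      simp only [HomogeneousLocalization.algebraMap_apply, q, Away.val_mk, Localization.mk_pow, Localization.mk_prod]
      refine congrArg₂ Localization.mk rfl (Subtype.ext ?_)
      simp only [pow_one, SubmonoidClass.coe_pow, Finset.prod_pow_eq_pow_sum]
      congr 1
      simpa using hai.symm
    rw [h4, map_prod]
    refine Subring.prod_mem _ fun i _ => ?_
    rw [map_pow]
    exact Subring.pow_mem _ (hS1 i i.2) _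
  | zero => rw [map_zero]; exact S.zero_mem
  | add a b _ _ ha hb => rw [map_add]; exact S.add_mem ha hb
  | smul r a _ ha =>
    rw [Algebra.smul_def, map_mul]
    refine S.mul_mem ?_ ha
    obtain ⟨e, he⟩ := h0 r r.2
    have h5 : r = ⟨algebraMap E A e, SetLike.algebraMap_mem_graded 𝒜 e⟩ := Subtype.ext he.symm
    rw [h5]
    exact hS0 e

lemma rho_q_zero (x z : A) (hx : x ∈ 𝒜 1) (hz : z ∈ 𝒜 1) [Nonempty (Proj.basicOpen 𝒜 x)]
    (h : ¬ Nonempty (Proj.basicOpen 𝒜 z)) : rho 𝒜 x (q 𝒜 hx hz) = 0 := by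
  have h1 := Proj.awayι_preimage_basicOpen 𝒜 hx one_pos hz one_pos
  have h2 : Proj.basicOpen 𝒜 z = ⊥ := by
    rw [← TopologicalSpace.Opens.coe_eq_empty, Set.eq_empty_iff_forall_notMem]
    intro y hy
    exact h ⟨⟨y, hy⟩⟩
  rw [h2] at h1
  have h3 : PrimeSpectrum.basicOpen (Away.isLocalizationElem hx hz) = ⊥ := by
    rw [← h1]
    rfl
  rw [PrimeSpectrum.basicOpen_eq_bot_iff] at h3
  have h4 : Away.isLocalizationElem hx hz = q 𝒜 hx hz := by
    ext
    rw [q, Away.isLocalizationElem, Away.val_mk, Away.val_mk, pow_one]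
  rw [h4] at h3
  exact (h3.map (rho 𝒜 x)).eq_zero

end

end Pool.Agent.Run7.h56.SC
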