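import Pool.Agent.Run7.h275.S.I2
import Pool.Agent.Run7.h596.SC.DCT
import Pool.Agent.Run7.h56.SC.ProjCh

/-!
# PRJ: homogeneous coordinates of an integral projective scheme over a number field (helper275's project)

The statement `S_PRJ` is false for a general field `E` (the isomorphism `X ≅ Proj 𝒜` is not an isomorphism over `E`); for
number fields it is true for every structure morphism.
-/

set_option autoImplicit false
set_option linter.unusedVariables false

namespace Pool.Agent.Run7.h56.SC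

open AlgebraicGeometry CategoryTheory Pool.Agent.W418.LU2 Pool.Agent.Run7.h275.RB Pool.Agent.Run7.h275.SC

/-- `S_PRJ` for number fields. -/
def S_PRJ' : Prop := ∀ (E : Type) [Field E] [NumberField E] (X : Scheme.{0}) [IsIntegral X]
  (f : X ⟶ Spec (CommRingCat.of E)),
  (∃ (A : Type) (_ : CommRing A) (_ : Algebra E A) (𝒜 : ℕ → Submodule E A) (_ : GradedAlgebra 𝒜),
    (∀ a ∈ 𝒜 0, ∃ q : E, algebraMap E A q = a) ∧
    (∃ s : Finset A, (∀ a ∈ s, a ∈ 𝒜 1) ∧ Algebra.adjoin E (s : Set A) = ⊤) ∧ Nonempty (X ≅ Proj 𝒜)) →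
  ∃ (F : Type) (_ : Field F) (_ : Algebra E F) (g₀ : Spec (CommRingCat.of F) ⟶ X) (n : ℕ) (y : Fin n → F)
    (j : ∀ i, Sp (ch E y i) ⟶ X), (∀ i, y i ≠ 0) ∧ (∀ i, Fr (ch E y i)) ∧ (∀ i, IsOpenImmersion (j i)) ∧
      (∀ i, gen (ch E y i) ≫ j i = g₀) ∧ (∀ x : X, ∃ i z, j i z = x) ∧
      g₀ ≫ f = Spec.map (CommRingCat.ofHom (algebraMap E F))

lemma aux {K : Type} [Field K] (a c u v : K) (hc : c ≠ 0) : a * (u * v) = a / c * u * (c * v) := by
  field_simp

/-- The case of `Proj 𝒜` itself, with an arbitrary structure morphism. -/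
lemma main (E : Type) [Field E] [NumberField E] (A : Type) [CommRing A] [Algebra E A] (𝒜 : ℕ → Submodule E A)
    [GradedAlgebra 𝒜] [IsIntegral (Proj 𝒜)] (f : Proj 𝒜 ⟶ Spec (CommRingCat.of E))
    (h0 : ∀ a ∈ 𝒜 0, ∃ q : E, algebraMap E A q = a) (s : Finset A) (hs1 : ∀ a ∈ s, a ∈ 𝒜 1)
    (hs : Algebra.adjoin E (s : Set A) = ⊤) :
    ∃ (F : Type) (_ : Field F) (_ : Algebra E F) (g₀ : Spec (CommRingCat.of F) ⟶ Proj 𝒜) (n : ℕ) (y : Fin n → F)
    (j : ∀ i, Sp (ch E y i) ⟶ Proj 𝒜), (∀ i, y i ≠ 0) ∧ (∀ i, Fr (ch E y i)) ∧ (∀ i, IsOpenImmersion (j i)) ∧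
      (∀ i, gen (ch E y i) ≫ j i = g₀) ∧ (∀ x : Proj 𝒜, ∃ i z, j i z = x) ∧
      g₀ ≫ f = Spec.map (CommRingCat.ofHom (algebraMap E F)) := by
  classical
  let F : Type := ((Proj 𝒜).functionField : Type)
  let g₀ : Spec (CommRingCat.of F) ⟶ Proj 𝒜 := (Proj 𝒜).fromSpecStalk (genericPoint (Proj 𝒜))
  let α : CommRingCat.of E ⟶ CommRingCat.of F := Spec.preimage (g₀ ≫ f)
  have hα : Spec.map α = g₀ ≫ f := Spec.map_preimage _
  let _ : Algebra E F := α.hom.toAlgebra
  -- the generators with a nonempty basic open set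
  let T := {x : s // Nonempty (Proj.basicOpen 𝒜 (x : A))}
  have hT : ∀ x : T, Nonempty (Proj.basicOpen 𝒜 (x : A)) := fun x => x.2
  have hT1 : ∀ x : T, (x.1 : A) ∈ 𝒜 1 := fun x => hs1 _ x.1.2
  have hcov : ∀ p : Proj 𝒜, ∃ x : T, p ∈ Proj.basicOpen 𝒜 (x.1 : A) := by
    intro p
    have h1 : Algebra.adjoin (𝒜 0) (Set.range (fun z : s => (z : A))) = ⊤ := by
      rw [eq_top_iff]
      rintro a -
      have ha : a ∈ Algebra.adjoin E (s : Set A) := by rw [hs]; trivial
      induction ha using Algebra.adjoin_induction with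
      | mem a ha => exact Algebra.subset_adjoin ⟨⟨a, ha⟩, rfl⟩
      | algebraMap r => exact Subalgebra.algebraMap_mem (Algebra.adjoin (𝒜 0) _) ⟨algebraMap E A r, SetLike.algebraMap_mem_graded 𝒜 r⟩
      | add a b _ _ ha hb => exact add_mem ha hb
      | mul a b _ _ ha hb => exact mul_mem ha hb
    have h2 := Proj.iSup_basicOpen_eq_top' 𝒜 (fun z : s => (z : A)) (fun z => ⟨1, hs1 _ z.2⟩) h1
    have h3 : p ∈ (⊤ : (Proj 𝒜).Opens) := trivial
    rw [← h2, TopologicalSpace.Opens.mem_iSup] at h3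
    obtain ⟨x, hx⟩ := h3
    exact ⟨⟨x, ⟨⟨p, hx⟩⟩⟩, hx⟩
  obtain ⟨x₀, -⟩ := hcov (genericPoint (Proj 𝒜))
  let r : ∀ x : T, HomogeneousLocalization.Away 𝒜 (x.1 : A) →+* F := fun x => rho 𝒜 (x.1 : A)
  let Q : T → T → F := fun z x => r x (q 𝒜 (hT1 x) (hT1 z))
  have hQ1 : ∀ x, Q x x = 1 := fun x => rho_q_self 𝒜 _ (hT1 x)
  have hQm : ∀ x w z, Q z x * Q x w = Q z w := fun x w z => rho_q_mul 𝒜 _ _ _ (hT1 x) (hT1 w) (hT1 z)
  have hQ0 : ∀ x w, Q x w ≠ 0 := fun x w h => by
    have h1 := hQm w x x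
    rw [h, zero_mul, hQ1] at h1
    exact zero_ne_one h1
  -- the constants
  let σ : E →+* F := (r x₀).comp ((HomogeneousLocalization.fromZeroRingHom 𝒜 _).comp
    ({ toFun := fun e => ⟨algebraMap E A e, SetLike.algebraMap_mem_graded 𝒜 e⟩
       map_one' := Subtype.ext (map_one _)
       map_mul' := fun a b => Subtype.ext (map_mul _ _ _)
       map_zero' := Subtype.ext (map_zero _)
       map_add' := fun a b => Subtype.ext (map_add _ _ _) } : E →+* 𝒜 0))
  have hσ : ∀ (x : T) e, σ e = r x (con 𝒜 _ e) := fun x e =>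
    rho_con 𝒜 (x₀.1 : A) (x.1 : A) (hT1 x₀) (hT1 x) e
  -- the basis
  let b := Module.finBasis ℚ E
  let I := Fin (Module.finrank ℚ E) × T
  let y : I → F := fun i => σ (b i.1) * Q i.2 x₀
  have hσi : Function.Injective σ := σ.injective
  have hy0 : ∀ i, y i ≠ 0 := fun i => mul_ne_zero ((map_ne_zero σ).mpr (b.ne_zero _)) (hQ0 _ _)
  have hyd : ∀ i l : I, y l / y i = σ (b l.1 / b i.1) * Q l.2 i.2 := by
    intro i l
    rw [div_eq_iff (hy0 i), map_div₀]
    have h1 : σ (b i.1) ≠ 0 := (map_ne_zero σ).mpr (b.ne_zero _)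
    have h2 := hQm i.2 x₀ l.2
    simp only [y]
    rw [← h2]
    exact aux _ _ _ _ h1
  have hR : ∀ (x : T) (S : Subring F), (∀ e, σ e ∈ S) → (∀ z, Q z x ∈ S) → (r x).range ≤ S := by
    intro x S hS0 hS1
    refine range_rho_le 𝒜 s h0 hs1 hs (x.1 : A) (hT1 x) S (fun e => ?_) (fun z hz => ?_)
    · have := hS0 e
      rwa [hσ x e] at this
    · by_cases h : Nonempty (Proj.basicOpen 𝒜 z)
      · exact hS1 ⟨⟨z, hz⟩, h⟩
      · rw [rho_q_zero 𝒜 _ _ _ _ h]
        exact S.zero_mem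
  have hlow : ∀ i : I, (Algebra.adjoin E (Set.range fun l => y l / y i)).toSubring = (r i.2).range := by
    intro i
    apply le_antisymm
    · intro z hz
      have hz' : z ∈ Algebra.adjoin E (Set.range fun l => y l / y i) := hz
      clear hz
      induction hz' using Algebra.adjoin_induction with
      | mem w hw =>
        obtain ⟨l, rfl⟩ := hw
        show y l / y i ∈ _
        rw [hyd, hσ i.2]
        exact (r i.2).range.mul_mem ⟨_, rfl⟩ ⟨_, rfl⟩
      | algebraMap e =>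
        have h1 : (r i.2).range = ((Proj 𝒜).germToFunctionField (Proj.basicOpen 𝒜 (i.2.1 : A))).hom.range :=
          range_rho 𝒜 (i.2.1 : A) (hT1 i.2)
        rw [h1]
        have h5 : α = ((Scheme.ΓSpecIso (.of E)).inv ≫ f.appLE ⊤ (Proj.basicOpen 𝒜 (i.2.1 : A)) le_top ≫
            (Proj 𝒜).germToFunctionField (Proj.basicOpen 𝒜 (i.2.1 : A))) := by
          apply Spec.map_injective
          rw [hα]
          exact Run7.h596.SC.key E (Proj 𝒜) f _ (Proj.isAffineOpen_basicOpen 𝒜 _ (hT1 i.2) one_pos)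
        show α.hom e ∈ _
        rw [h5]
        exact ⟨_, rfl⟩
      | add a b _ _ ha hb => exact (r i.2).range.add_mem ha hb
      | mul a b _ _ ha hb => exact (r i.2).range.mul_mem ha hb
    · refine hR i.2 _ (fun e => ?_) (fun z => ?_)
      · show σ e ∈ Algebra.adjoin E (Set.range fun l => y l / y i)
        have h1 := b.sum_repr (e * b i.1)
        have h2 : e = ∑ k, (b.repr (e * b i.1) k) • (b k / b i.1) := by
          have h3 : b i.1 ≠ 0 := b.ne_zero _
          rw [eq_comm]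
          calc ∑ k, (b.repr (e * b i.1) k) • (b k / b i.1) = (∑ k, (b.repr (e * b i.1) k) • b k) / b i.1 := by
                rw [Finset.sum_div]
                exact Finset.sum_congr rfl fun k _ => (smul_div_assoc _ _ _).symm
            _ = e := by rw [h1, mul_div_assoc, div_self h3, mul_one]
        rw [h2, map_sum]
        refine Subalgebra.sum_mem _ fun k _ => ?_
        rw [Algebra.smul_def, map_mul]
        refine Subalgebra.mul_mem _ ?_ ?_
        · have h4 : σ (algebraMap ℚ E (b.repr (e * b i.1) k)) = algebraMap E F (algebraMap ℚ E (b.repr (e * b i.1) k)) := by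
            rw [eq_ratCast, map_ratCast, map_ratCast]
          rw [h4]
          exact Subalgebra.algebraMap_mem _ _
        · have h4 := hyd i (k, i.2)
          simp only at h4
          rw [hQ1, mul_one] at h4
          rw [← h4]
          exact Algebra.subset_adjoin ⟨_, rfl⟩
      · show Q z i.2 ∈ Algebra.adjoin E (Set.range fun l => y l / y i)
        have h4 := hyd i (i.1, z)
        simp only at h4
        rw [div_self (b.ne_zero _), map_one, one_mul] at h4
        rw [← h4]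
        exact Algebra.subset_adjoin ⟨_, rfl⟩
  -- the charts
  have : Fintype I := inferInstance
  let e := Fintype.equivFin I
  have hch : ∀ i : Fin (Fintype.card I), ch E (fun k => y (e.symm k)) i =
      Run7.h596.SC.ch (Proj 𝒜) (Proj.basicOpen 𝒜 ((e.symm i).2.1 : A)) := by
    intro i
    have h1 : ch E (fun k => y (e.symm k)) i = (Algebra.adjoin E (Set.range fun l => y l / y (e.symm i))).toSubring := by
      unfold ch
      congr 2
      exact e.symm.surjective.range_comp (fun l => y l / y (e.symm i))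
    rw [h1, hlow]
    exact range_rho 𝒜 _ (hT1 (e.symm i).2)
  have haff : ∀ x : T, IsAffineOpen (Proj.basicOpen 𝒜 (x.1 : A)) := fun x =>
    Proj.isAffineOpen_basicOpen 𝒜 _ (hT1 x) one_pos
  have hj : ∀ i : Fin (Fintype.card I), ∃ j : Sp (ch E (fun k => y (e.symm k)) i) ⟶ Proj 𝒜, IsOpenImmersion j ∧
      gen (ch E (fun k => y (e.symm k)) i) ≫ j = g₀ ∧
      ∀ x ∈ Proj.basicOpen 𝒜 ((e.symm i).2.1 : A), ∃ z, j z = x := by
    intro i
    rw [hch i]
    exact ⟨Run7.h596.SC.chj (Proj 𝒜) _ (haff _), inferInstance, Run7.h596.SC.gen_chj (Proj 𝒜) _ (haff _),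
      fun x hx => Run7.h596.SC.chj_surj (Proj 𝒜) _ (haff _) x hx⟩
  choose j hj1 hj2 hj3 using hj
  refine ⟨F, inferInstance, inferInstance, g₀, Fintype.card I, fun k => y (e.symm k), j, fun i => hy0 _, fun i => ?_, hj1,
    hj2, fun x => ?_, hα.symm⟩
  · rw [hch i]
    exact Run7.h596.SC.chFr (Proj 𝒜) _ (haff _)
  · obtain ⟨t, ht⟩ := hcov x
    have hne : Nonempty (Fin (Module.finrank ℚ E)) := ⟨⟨0, Module.finrank_pos⟩⟩
    obtain ⟨k⟩ := hne
    have h1 : x ∈ Proj.basicOpen 𝒜 ((e.symm (e (k, t))).2.1 : A) := by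
      rw [Equiv.symm_apply_apply]
      exact ht
    obtain ⟨z, hz⟩ := hj3 (e (k, t)) x h1
    exact ⟨_, z, hz⟩

theorem t_PRJ : S_PRJ' := by
  rintro E _ _ X _ f ⟨A, _, _, 𝒜, _, h0, ⟨s, hs1, hs⟩, ⟨φ⟩⟩
  have : Nonempty (Proj 𝒜) := ⟨φ.hom (genericPoint X)⟩
  have : IsIntegral (Proj 𝒜) := isIntegral_of_isOpenImmersion φ.inv
  obtain ⟨F, _, _, g₀, n, y, j, h1, h2, h3, h4, h5, h6⟩ := main E A 𝒜 (φ.inv ≫ f) h0 s hs1 hs
  refine ⟨F, inferInstance, inferInstance, g₀ ≫ φ.inv, n, y, fun i => j i ≫ φ.inv, h1, h2, fun i => ?_, fun i => ?_,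
    fun x => ?_, ?_⟩
  · have := h3 i
    infer_instance
  · rw [← Category.assoc, h4]
  · obtain ⟨i, z, hz⟩ := h5 (φ.hom x)
    refine ⟨i, z, ?_⟩
    rw [Scheme.Hom.comp_apply, hz]
    simp
  · rw [Category.assoc, h6]

end Pool.Agent.Run7.h56.SC
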